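import Pool.Agent.Q127.SM.Stm

/-!
# Project SM (helper127), job DEC: decay at every cusp
-/

set_option autoImplicit false

open Complex Matrix.SpecialLinearGroup MatrixGroups ModularGroup Filter Topology

namespace Pool.Agent.Q68.SM

open Pool.Agent.TH133.SH Pool.Agent.Q127.SM

/-- the conjugate of a translation -/
lemma act_period (γ : SL(2, ℤ)) (N : ℕ) {w : ℂ} (hw : 0 < w.im) :
    act γ (w + (N : ℂ)) = act (γ * T ^ (N : ℤ) * γ⁻¹) (act γ w) := by
  have e0 : act (T ^ (N : ℤ)) w = w + (N : ℂ) := by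
    obtain ⟨h00, h01, h10, h11⟩ := T_pow (N : ℤ)
    unfold act mob
    rw [h00, h01, h10, h11]
    simp
  rw [← act_mul _ _ hw, inv_mul_cancel_right, act_mul _ _ hw, e0]

lemma in_G (γ : SL(2, ℤ)) (N : ℕ) : InG N (γ * T ^ (N : ℤ) * γ⁻¹) := by
  obtain ⟨h00, h01, h10, h11⟩ := T_pow (N : ℤ)
  unfold InG
  rw [mul10, mul10, mul11, h00, h01, h10, h11, inv00, inv10]
  exact ⟨-(γ 1 0) ^ 2, by ring⟩

lemma tr_four (γ : SL(2, ℤ)) (N : ℕ) :
    ((γ * T ^ (N : ℤ) * γ⁻¹) 0 0 + (γ * T ^ (N : ℤ) * γ⁻¹) 1 1) ^ 2 = 4 := by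
  obtain ⟨h00, h01, h10, h11⟩ := T_pow (N : ℤ)
  have hd := det_eq γ
  rw [mul00, mul11, mul00, mul01, mul10, mul11, h00, h01, h10, h11, inv00, inv10, inv01, inv11]
  have e : (γ 0 0 * 1 + γ 0 1 * 0) * γ 1 1 + (γ 0 0 * (N : ℤ) + γ 0 1 * 1) * -γ 1 0 +
      ((γ 1 0 * 1 + γ 1 1 * 0) * -γ 0 1 + (γ 1 0 * (N : ℤ) + γ 1 1 * 1) * γ 0 0) = 2 := by
    linear_combination 2 * hd
  rw [e]
  norm_num

theorem dec : S_dec := by
  intro N a hN ha γ ε hε
  obtain ⟨B, hB⟩ := ha.bounded
  obtain ⟨G, hG⟩ : ∃ G : ℂ → ℂ, ∀ w, G w = Fser a (act γ w) := ⟨_, fun w => rfl⟩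
  have hGf : G = fun w => Fser a (act γ w) := funext hG
  have hNpos : (0 : ℝ) < N := by exact_mod_cast hN
  have hopen : IsOpen {w : ℂ | 0 < w.im} := isOpen_lt continuous_const Complex.continuous_im
  have hder : ∀ w : ℂ, 0 < w.im → HasDerivAt G (2 * (Real.pi : ℂ) * Complex.I *
      fser a (act γ w) * (1 / (((γ 1 0 : ℤ) : ℂ) * w + ((γ 1 1 : ℤ) : ℂ)) ^ 2)) w := by
    intro w hw
    have := hasDerivAt_comp ha (det_real γ) hw
    rw [hGf]
    push_cast at this
    exact this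
  have hper : ∀ w : ℂ, 0 < w.im → G (w + (N : ℂ)) = G w := by
    intro w hw
    have h1 := diff_eq ha (in_G γ N) (act_im_pos γ hw)
    rw [Hs_parabolic ha (in_G γ N) (tr_four γ N), sub_eq_zero] at h1
    rw [hG, hG, act_period γ N hw, h1]
  have him : ∀ w : ℂ, (w + (N : ℂ)).im = w.im := by
    intro w
    simp
  obtain ⟨f, hf⟩ : ∃ f : ℂ → ℂ, ∀ w, f w = if 0 < w.im then deriv G w else 0 :=
    ⟨fun w => if 0 < w.im then deriv G w else 0, fun w => rfl⟩
  have hfper : Function.Periodic f ((N : ℝ) : ℂ) := by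
    intro w
    have e0 : ((N : ℝ) : ℂ) = (N : ℂ) := by push_cast; rfl
    rw [e0, hf, hf, him]
    by_cases hw : 0 < w.im
    · rw [if_pos hw, if_pos hw]
      have h1 : (fun z => G (z + (N : ℂ))) =ᶠ[𝓝 w] G := by
        filter_upwards [hopen.mem_nhds hw] with z hz
        exact hper z hz
      have h2 := h1.deriv_eq
      rw [← h2, deriv_comp_add_const]
    · rw [if_neg hw, if_neg hw]
  have hfd : ∀ w : ℂ, 0 < w.im → DifferentiableAt ℂ f w := by
    intro w hw
    have h1 : DifferentiableOn ℂ G {w : ℂ | 0 < w.im} := fun z hz =>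
      (hder z hz).differentiableAt.differentiableWithinAt
    have h2 := (h1.deriv hopen).differentiableAt (hopen.mem_nhds hw)
    refine h2.congr_of_eventuallyEq ?_
    filter_upwards [hopen.mem_nhds hw] with z hz
    rw [hf, if_pos hz]
  -- the norm
  have hnorm : ∀ w : ℂ, 0 < w.im →
      2 * Real.pi * ((act γ w).im * ‖fser a (act γ w)‖) = w.im * ‖f w‖ := by
    intro w hw
    have h1 : (act γ w).im = w.im / ‖((γ 1 0 : ℤ) : ℂ) * w + ((γ 1 1 : ℤ) : ℂ)‖ ^ 2 := by
      have := im_mob (det_real γ) hw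
      push_cast at this
      exact this
    have e1 : ‖2 * (Real.pi : ℂ) * Complex.I‖ = 2 * Real.pi := by
      rw [norm_mul, norm_mul, Complex.norm_I, Complex.norm_real, Real.norm_eq_abs,
        abs_of_pos Real.pi_pos]
      simp
    rw [hf, if_pos hw, (hder w hw).deriv, norm_mul, norm_mul, e1, norm_div, norm_one, norm_pow, h1]
    ring
  have htop : ∀ c : ℝ, ∀ᶠ w : ℂ in comap Complex.im atTop, c < w.im := fun c =>
    tendsto_comap.eventually (eventually_gt_atTop c)
  have hzero : ZeroAtFilter (comap Complex.im atTop) f := by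
    unfold ZeroAtFilter
    have h1 : Tendsto (fun w : ℂ => 2 * Real.pi * B / w.im) (comap Complex.im atTop) (𝓝 0) :=
      Tendsto.div_atTop tendsto_const_nhds tendsto_comap
    refine squeeze_zero_norm' ?_ h1
    filter_upwards [htop 0] with w hw
    rw [le_div_iff₀ hw, mul_comm, ← hnorm w hw]
    have := hB _ (act_im_pos γ hw)
    have hpi := Real.pi_pos
    gcongr
  have hexp := Function.Periodic.exp_decay_of_zero_at_inf hNpos hfper
    ((htop 0).mono fun w hw => hfd w hw) hzero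
  obtain ⟨C, hC⟩ := hexp.bound
  have hlim : Tendsto (fun y : ℝ => C * (y * Real.exp (-2 * Real.pi * y / N))) atTop (𝓝 0) := by
    have h1 := Real.tendsto_pow_mul_exp_neg_atTop_nhds_zero 1
    have h2 : Tendsto (fun y : ℝ => 2 * Real.pi / N * y) atTop atTop :=
      tendsto_id.const_mul_atTop (by positivity)
    have h3 := h1.comp h2
    have h4 := h3.const_mul (C * (N / (2 * Real.pi)))
    rw [mul_zero] at h4
    refine h4.congr fun y => ?_
    have hpi := Real.pi_pos
    simp only [Function.comp_apply, pow_one]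
    have e : -(2 * Real.pi / N * y) = -2 * Real.pi * y / N := by ring
    rw [e]
    field_simp
  have hev : ∀ᶠ y : ℝ in atTop, C * (y * Real.exp (-2 * Real.pi * y / N)) < 2 * Real.pi * ε :=
    (tendsto_order.1 hlim).2 _ (by positivity)
  have hC' : ∀ᶠ w : ℂ in comap Complex.im atTop, 0 < w.im →
      (act γ w).im * ‖fser a (act γ w)‖ ≤ ε := by
    filter_upwards [hC, tendsto_comap.eventually hev] with w h1 h2 hw
    have h3 := hnorm w hw
    rw [Real.norm_eq_abs, abs_of_pos (Real.exp_pos _)] at h1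
    have h4 : w.im * ‖f w‖ ≤ C * (w.im * Real.exp (-2 * Real.pi * w.im / N)) := by
      calc w.im * ‖f w‖ ≤ w.im * (C * Real.exp (-2 * Real.pi * w.im / N)) := by gcongr
        _ = _ := by ring
    have hpi := Real.pi_pos
    have h5 : 2 * Real.pi * ((act γ w).im * ‖fser a (act γ w)‖) ≤ 2 * Real.pi * ε := by
      rw [h3]
      exact h4.trans h2.le
    exact le_of_mul_le_mul_left h5 (by positivity)
  rw [eventually_comap] at hC'
  obtain ⟨v, hv⟩ := eventually_atTop.1 hC'
  exact ⟨v, fun w h1 h2 => hv w.im h1 w rfl h2⟩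

end Pool.Agent.Q68.SM
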