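import Pool.Agent.Q127.SM.Stm

/-!
# Project SM (helper127), job RAM: the bound `|a(q)| ≤ q`
-/

set_option autoImplicit false

open Complex Matrix.SpecialLinearGroup MatrixGroups ModularGroup

namespace Pool.Agent.Q68.SM

open Pool.Agent.TH133.SH Pool.Agent.Q127.SM

theorem ram (h1 : S_dec) (h2 : S_max) (h3 : S_hkf) : S_ram := by
  intro N a q hN ha ha1 hq hH
  by_contra hcon
  push Not at hcon
  obtain ⟨z₀, hz₀, hpos, hmax⟩ := h2 N a hN ha ha1
  obtain ⟨P, hP⟩ : ∃ P : ℂ → ℝ, ∀ z, P z = z.im * ‖fser a z‖ := ⟨_, fun z => rfl⟩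
  obtain ⟨M, hM⟩ : ∃ M : ℝ, M = z₀.im * ‖fser a z₀‖ := ⟨_, rfl⟩
  have hMpos : 0 < M := by rw [hM]; positivity
  have hle : ∀ z : ℂ, 0 < z.im → P z ≤ M := by
    intro z hz
    rw [hP, hM]
    exact hmax z hz
  have hq0 : (0 : ℝ) < q := by exact_mod_cast hq.pos
  have haq : (q : ℝ) + 1 ≤ |(a q : ℝ)| := by
    have : (q : ℤ) + 1 ≤ |a q| := hcon
    exact_mod_cast this
  have him1 : ∀ (z : ℂ) (u : ℕ), ((z + (u : ℂ)) / (q : ℂ)).im = z.im / q := by
    intro z u
    have e : (z + (u : ℂ)) / (q : ℂ) = (((1 / q : ℝ)) : ℂ) * (z + (u : ℂ)) := by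
      push_cast
      ring
    rw [e, Complex.im_ofReal_mul]
    simp
    ring
  have him2 : ∀ z : ℂ, ((q : ℂ) * z).im = q * z.im := by
    intro z
    simp [Complex.mul_im]
  have step : ∀ z : ℂ, 0 < z.im → P z = M → P ((q : ℂ) * z) = M := by
    intro z hz hPz
    apply le_antisymm (hle _ (by rw [him2]; positivity))
    have h4 := h3 a q hq ha.zero ha.summable hH z hz
    have h5 : |(a q : ℝ)| * ‖fser a z‖ ≤ (1 / (q : ℝ)) *
        ∑ u ∈ Finset.range q, ‖fser a ((z + (u : ℂ)) / (q : ℂ))‖ + q * ‖fser a ((q : ℂ) * z)‖ := by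
      have e1 : |(a q : ℝ)| * ‖fser a z‖ = ‖(a q : ℂ) * fser a z‖ := by
        rw [norm_mul, Complex.norm_intCast]
      rw [e1, ← h4]
      refine (norm_add_le _ _).trans ?_
      have e2 : ‖(1 / (q : ℂ))‖ = 1 / (q : ℝ) := by
        rw [norm_div, norm_one, Complex.norm_natCast]
      rw [norm_mul, norm_mul, e2, Complex.norm_natCast]
      gcongr
      exact norm_sum_le _ _
    have h6 : |(a q : ℝ)| * P z ≤ ∑ u ∈ Finset.range q, P ((z + (u : ℂ)) / (q : ℂ)) +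
        P ((q : ℂ) * z) := by
      have h7 := mul_le_mul_of_nonneg_left h5 hz.le
      have e3 : z.im * (|(a q : ℝ)| * ‖fser a z‖) = |(a q : ℝ)| * P z := by rw [hP]; ring
      have e4 : z.im * ((1 / (q : ℝ)) * ∑ u ∈ Finset.range q, ‖fser a ((z + (u : ℂ)) / (q : ℂ))‖ +
          q * ‖fser a ((q : ℂ) * z)‖) = ∑ u ∈ Finset.range q, P ((z + (u : ℂ)) / (q : ℂ)) +
          P ((q : ℂ) * z) := by
        have e5 : ∑ u ∈ Finset.range q, P ((z + (u : ℂ)) / (q : ℂ)) =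
            z.im * ((1 / (q : ℝ)) * ∑ u ∈ Finset.range q, ‖fser a ((z + (u : ℂ)) / (q : ℂ))‖) := by
          rw [← mul_assoc, Finset.mul_sum]
          refine Finset.sum_congr rfl fun u _ => ?_
          rw [hP, him1]
          ring
        rw [e5, hP, him2]
        ring
      rw [e3, e4] at h7
      exact h7
    have h8 : ∑ u ∈ Finset.range q, P ((z + (u : ℂ)) / (q : ℂ)) ≤ q * M := by
      have := Finset.sum_le_card_nsmul (Finset.range q) (fun u => P ((z + (u : ℂ)) / (q : ℂ))) M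
        (fun u _ => hle _ (by rw [him1]; positivity))
      simpa using this
    rw [hPz] at h6
    have h9 : ((q : ℝ) + 1) * M ≤ |(a q : ℝ)| * M := by gcongr
    linarith
  have hiter : ∀ k : ℕ, ((q : ℂ) ^ k * z₀).im = (q : ℝ) ^ k * z₀.im ∧ P ((q : ℂ) ^ k * z₀) = M := by
    intro k
    induction k with
    | zero => simp [hP, hM]
    | succ k ih =>
      have e : (q : ℂ) ^ (k + 1) * z₀ = (q : ℂ) * ((q : ℂ) ^ k * z₀) := by ring
      rw [e]
      refine ⟨?_, step _ (by rw [ih.1]; positivity) ih.2⟩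
      rw [him2, ih.1]
      ring
  obtain ⟨v, hv⟩ := h1 N a hN ha 1 (M / 2) (by positivity)
  obtain ⟨k, hk⟩ := pow_unbounded_of_one_lt (v / z₀.im) (by exact_mod_cast hq.one_lt : (1 : ℝ) < q)
  obtain ⟨hi, hPk⟩ := hiter k
  have h10 := hv ((q : ℂ) ^ k * z₀) (by
    rw [hi]
    rw [div_lt_iff₀ hz₀] at hk
    exact hk.le) (by rw [hi]; positivity)
  rw [act_one, ← hP, hPk] at h10
  linarith

end Pool.Agent.Q68.SM
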